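import Pool.Agent.Y935.WP.Gen
import Pool.Agent.Y935.WP.Wil

/-!
# Wilson quotients with an amplitude: arbitrary targets
-/

set_option autoImplicit false

open MeasureTheory Finset

namespace Pool.Agent.Results.MP_de5eaa_nt.ArbitraryTargets

/-- The integer `⌈β ((p-1)! + 1) / p⌉`; for `β = 1` and `p` prime it is the Wilson quotient. -/
noncomputable def W (β : ℝ) (p : ℕ) : ℤ := ⌈β * ((((p - 1).factorial : ℝ) + 1) / p)⌉

/-- The number of primes `p ≤ N` for which `W β p` is congruent modulo `p` to an element of `A p`. -/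
noncomputable def count (β : ℝ) (A : ℕ → Finset ℕ) (N : ℕ) : ℕ :=
  ((range (N + 1)).filter (fun p => p.Prime ∧ ∃ a ∈ A p, (p : ℤ) ∣ W β p - a)).card

/-- The expected number: the sum of `|A p| / p` over the primes `p ≤ N`. -/
noncomputable def V (A : ℕ → Finset ℕ) (N : ℕ) : ℝ :=
  ∑ p ∈ (range (N + 1)).filter Nat.Prime, ((A p).card : ℝ) / p

open Pool.Agent.Y935.WP

/-- the shifted family of targets -/
noncomputable def A' (A : ℕ → Finset ℕ) (n : ℕ) : Finset ℕ := if (n + 1).Prime then A (n + 1) else ∅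

lemma A'_sub {A : ℕ → Finset ℕ} (hA : ∀ p, p.Prime → A p ⊆ range p) (n : ℕ) :
    A' A n ⊆ range (n + 1) := by
  unfold A'
  split_ifs with h
  · exact hA _ h
  · exact Finset.empty_subset _

lemma sum_v (A : ℕ → Finset ℕ) (N : ℕ) :
    ∑ n ∈ range N, v (fun n => n + 1) (A' A) n = V A N := by
  unfold V
  rw [Finset.sum_filter, Finset.sum_range_succ', if_neg Nat.not_prime_zero, add_zero]
  refine Finset.sum_congr rfl fun n _ => ?_
  unfold v A'
  split_ifs with h
  · rfl
  · simp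

lemma sum_f {A : ℕ → Finset ℕ} (hA : ∀ p, p.Prime → A p ⊆ range p) (β : ℝ) (N : ℕ) :
    ∑ n ∈ range N, f ww (fun n => n + 1) (A' A) n β = (count β A N : ℝ) := by
  unfold count
  rw [Finset.card_filter]
  push_cast
  rw [Finset.sum_range_succ', if_neg (fun h => Nat.not_prime_zero h.1), add_zero]
  refine Finset.sum_congr rfl fun n _ => ?_
  have hW : W β (n + 1) = ⌈β * ww n⌉ := by
    unfold W ww
    rw [Nat.add_sub_cancel]
    push_cast
    rfl
  unfold f
  rw [hW]
  have hiff : ((⌈β * ww n⌉ % ((n + 1 : ℕ) : ℤ)).toNat ∈ A' A n) ↔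
      ((n + 1).Prime ∧ ∃ a ∈ A (n + 1), ((n + 1 : ℕ) : ℤ) ∣ ⌈β * ww n⌉ - a) := by
    unfold A'
    have hM0 : (0 : ℤ) < ((n + 1 : ℕ) : ℤ) := by positivity
    have h0 := Int.emod_nonneg ⌈β * ww n⌉ hM0.ne'
    split_ifs with hp
    · constructor
      · intro h
        refine ⟨hp, _, h, ?_⟩
        rw [Int.toNat_of_nonneg h0]
        exact Int.dvd_self_sub_of_emod_eq rfl
      · rintro ⟨_, a, ha, hd⟩
        have haM : a < n + 1 := Finset.mem_range.1 (hA _ hp ha)
        have h1 : ⌈β * ww n⌉ ≡ (a : ℤ) [ZMOD ((n + 1 : ℕ) : ℤ)] := ((Int.modEq_iff_dvd).2 hd).symm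
        have h2 : ⌈β * ww n⌉ % ((n + 1 : ℕ) : ℤ) = a := by
          rw [h1]
          exact Int.emod_eq_of_lt (by positivity) (by exact_mod_cast haM)
        rw [h2]
        simpa using ha
    · constructor
      · intro h; exact absurd h (Finset.notMem_empty _)
      · intro h; exact absurd h.1 hp
  simp only [hiff]

/-- **Arbitrary targets for almost every amplitude.** -/
theorem result :
    (∀ p : ℕ, p.Prime → W 1 p * p = ((p - 1).factorial : ℤ) + 1) ∧
    ∀ A : ℕ → Finset ℕ, (∀ p, p.Prime → A p ⊆ range p) →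
      ∀ᵐ β : ℝ, 0 < β → ∃ B : ℝ, ∀ N : ℕ,
        |(count β A N : ℝ) - V A N| ≤
          B * (Real.sqrt (1 + V A N) * (1 + Real.log (1 + V A N)) ^ 2) := by
  constructor
  · intro p hp
    have := Fact.mk hp
    have h1 : ((p : ℤ)) ∣ ((p - 1).factorial : ℤ) + 1 := by
      rw [← ZMod.intCast_zmod_eq_zero_iff_dvd _ p]
      push_cast
      rw [ZMod.wilsons_lemma]
      ring
    obtain ⟨c, hc⟩ := h1
    have hp0 : (p : ℝ) ≠ 0 := by exact_mod_cast hp.ne_zero
    have h2 : (((p - 1).factorial : ℝ) + 1) / p = (c : ℝ) := by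
      rw [div_eq_iff hp0]
      have : ((((p - 1).factorial : ℤ) + 1 : ℤ) : ℝ) = ((p * c : ℤ) : ℝ) := by rw [hc]
      push_cast at this
      rw [this]; ring
    unfold W
    rw [one_mul, h2, Int.ceil_intCast, hc]
    ring
  · intro A hA
    have h1 := Pool.Agent.Y935.RP.ae_pos (fun k => law_one (w := ww) (M := fun n => n + 1)
      (A := A' A) ww_pos (fun n => by omega) (A'_sub hA) (C := 26) (by norm_num) ww_growth k)
    filter_upwards [h1] with β hβ hβ0
    obtain ⟨B, _, hB⟩ := hβ hβ0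
    refine ⟨B, fun N => ?_⟩
    have h2 := hB N
    rw [Finset.sum_sub_distrib, sum_f hA, sum_v] at h2
    unfold Pool.Agent.TH888.R.gr at h2
    exact h2

end Pool.Agent.Results.MP_de5eaa_nt.ArbitraryTargets
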